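import Mathlib
import Pool.Agent.Helper393.Final

open Filter Topology

namespace Pool.Agent.Results.MP_4abea4_an.CyclicHilbert

universe u v

/-- The compact `ℤ`-system `(X, T)` is Hilbert representable over the scalar field `𝕜`: there are a
Hilbert space `H` over `𝕜`, a unitary operator `U` on `H` and a topological embedding `α` of `X`
into `H` with its weak topology such that `α ∘ T = U ∘ α`. -/
def HilbertRepresentable (𝕜 : Type) [RCLike 𝕜] (X : Type v) [TopologicalSpace X]
    (T : X ≃ₜ X) : Prop :=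
  ∃ (H : Type u) (_ : NormedAddCommGroup H) (_ : InnerProductSpace 𝕜 H) (_ : CompleteSpace H)
    (U : H ≃ₗᵢ[𝕜] H) (α : X → H),
    IsEmbedding (fun x => toWeakSpace 𝕜 H (α x)) ∧ ∀ x, α (T x) = U (α x)

/-- `f` is a Hilbert function: it comes from a pointed Hilbert representable compact
`ℤ`-system. -/
def IsHilbertFunction (𝕜 : Type) [RCLike 𝕜] (f : ℤ → ℝ) : Prop :=
  ∃ (X : Type) (_ : TopologicalSpace X) (_ : CompactSpace X) (_ : T2Space X) (T : X ≃ₜ X),
    HilbertRepresentable.{0, 0} 𝕜 X T ∧
    ∃ (x₀ : X) (F : X → ℝ), Continuous F ∧ ∀ n : ℤ, f n = F ((T ^ n) x₀)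

/-- The shift `(σ g)(m) = g (m + 1)` on all real sequences indexed by `ℤ`. -/
def shift : (ℤ → ℝ) ≃ₜ (ℤ → ℝ) where
  toFun g m := g (m + 1)
  invFun g m := g (m - 1)
  left_inv g := by funext m; simp
  right_inv g := by funext m; simp
  continuous_toFun := by fun_prop
  continuous_invFun := by fun_prop

/-- The cyclic system `X_f` of `f`: the closure, in the product topology, of the set of the
translates `m ↦ f (m + n)`. -/
def cyclicSystem (f : ℤ → ℝ) : Set (ℤ → ℝ) :=
  closure (Set.range fun (n : ℤ) (m : ℤ) => f (m + n))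

lemma shift_mem_iff (f : ℤ → ℝ) (g : ℤ → ℝ) : g ∈ cyclicSystem f ↔ shift g ∈ cyclicSystem f := by
  have h : shift '' (Set.range fun (n : ℤ) (m : ℤ) => f (m + n))
      = Set.range fun (n : ℤ) (m : ℤ) => f (m + n) := by
    ext g
    constructor
    · rintro ⟨_, ⟨n, rfl⟩, rfl⟩
      refine ⟨n + 1, ?_⟩
      funext m
      change f (m + (n + 1)) = f (m + 1 + n)
      congr 1
      ring
    · rintro ⟨n, rfl⟩
      refine ⟨_, ⟨n - 1, rfl⟩, ?_⟩
      funext m
      change f (m + 1 + (n - 1)) = f (m + n)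
      congr 1
      ring
  unfold cyclicSystem
  conv_rhs => rw [← h, ← Homeomorph.image_closure]
  exact (shift.injective.mem_set_image).symm

/-- The shift restricted to the cyclic system. -/
def cyclicShift (f : ℤ → ℝ) : cyclicSystem f ≃ₜ cyclicSystem f :=
  shift.subtype (shift_mem_iff f)

lemma cyclicShift_apply (f : ℤ → ℝ) (g : cyclicSystem f) (m : ℤ) :
    (cyclicShift f g : ℤ → ℝ) m = (g : ℤ → ℝ) (m + 1) := rfl

/-- sanity check: the cyclic system of a bounded function is compact. -/
lemma isCompact_cyclicSystem {f : ℤ → ℝ} {C : ℝ} (hf : ∀ n, |f n| ≤ C) :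
    IsCompact (cyclicSystem f) := by
  have hK : IsCompact (Set.univ.pi fun _ : ℤ => Set.Icc (-C) C) :=
    isCompact_univ_pi fun _ => isCompact_Icc
  refine hK.of_isClosed_subset isClosed_closure (closure_minimal ?_ hK.isClosed)
  rintro _ ⟨n, rfl⟩ m _
  exact abs_le.1 (hf _)

section

open Pool.Agent.Helper393.HilbertSys

lemma continuous_inner_of_weak {𝕜 : Type} [RCLike 𝕜] {X : Type*} [TopologicalSpace X]
    {H : Type*} [NormedAddCommGroup H] [InnerProductSpace 𝕜 H] {α : X → H}
    (h : Continuous fun x => toWeakSpace 𝕜 H (α x)) (v : H) :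
    Continuous fun x => inner 𝕜 v (α x) :=
  (WeakBilin.eval_continuous (topDualPairing 𝕜 H).flip (innerSL 𝕜 v)).comp h

lemma isEmbedding_weak {𝕜 : Type} [RCLike 𝕜] {X : Type*} [TopologicalSpace X] [CompactSpace X]
    {H : Type*} [NormedAddCommGroup H] [InnerProductSpace 𝕜 H] [CompleteSpace H] {α : X → H}
    (hi : Function.Injective α) (h : ∀ v : H, Continuous fun x => inner 𝕜 v (α x)) :
    IsEmbedding fun x => toWeakSpace 𝕜 H (α x) := by
  have hc : Continuous fun x => toWeakSpace 𝕜 H (α x) := by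
    refine WeakBilin.continuous_of_continuous_eval _ fun l => ?_
    have := h ((InnerProductSpace.toDual 𝕜 H).symm l)
    simp only [InnerProductSpace.toDual_symm_apply] at this
    exact this
  have hi' : Function.Injective fun x => toWeakSpace 𝕜 H (α x) :=
    (toWeakSpace 𝕜 H).injective.comp hi
  exact (hc.isClosedEmbedding hi').isEmbedding

lemma rep_complex : HilbertRepresentable.{0, 0} ℂ ballW TT :=
  ⟨HH, inferInstance, inferInstance, inferInstance, UU, alpha,
    isEmbedding_weak alpha_injective alpha_continuous, alpha_TT⟩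

lemma rep_real : HilbertRepresentable.{0, 0} ℝ ballW TT := by
  let _ : InnerProductSpace ℝ HH := InnerProductSpace.rclikeToReal ℂ HH
  let V : HH ≃ₗᵢ[ℝ] HH :=
    { toFun := UU
      invFun := UU.symm
      left_inv := UU.symm_apply_apply
      right_inv := UU.apply_symm_apply
      map_add' := UU.map_add
      map_smul' := fun r x => UU.map_smul (r : ℂ) x
      norm_map' := UU.norm_map }
  refine ⟨HH, inferInstance, inferInstance, inferInstance, V, alpha, ?_, alpha_TT⟩
  refine isEmbedding_weak alpha_injective fun v => ?_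
  exact Complex.continuous_re.comp (alpha_continuous v)

lemma TT_zpow_aux (n : ℤ) : ∀ (x : ballW) (m : ℤ),
    (((TT ^ n) x : ballW) : WeakDual ℂ HH) (orb m) = (x : WeakDual ℂ HH) (orb (m - n)) := by
  induction n using Int.induction_on with
  | zero => intro x m; simp
  | succ n ih =>
    intro x m
    rw [zpow_add_one, Homeomorph.mul_apply, ih, TT_apply, UU_symm_orb]
    congr 2
    ring
  | pred n ih =>
    intro x m
    have h : ∀ (y : ballW) (k : ℤ), ((TT⁻¹ y : ballW) : WeakDual ℂ HH) (orb k)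
        = (y : WeakDual ℂ HH) (orb (k + 1)) := by
      intro y k
      rw [← UU_orb]
      rfl
    rw [zpow_sub_one, Homeomorph.mul_apply, ih, h]
    congr 2
    ring

lemma TT_zpow (n : ℤ) (x : ballW) :
    (((TT ^ n) x : ballW) : WeakDual ℂ HH) (orb 0) = (x : WeakDual ℂ HH) (orb (-n)) := by
  rw [TT_zpow_aux, zero_sub]

lemma ff_hilbert (𝕜 : Type) [RCLike 𝕜] (h : HilbertRepresentable.{0, 0} 𝕜 ballW TT) :
    IsHilbertFunction 𝕜 ff := by
  refine ⟨ballW, inferInstance, inferInstance, inferInstance, TT, h, pt 1 (by simp), FF,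
    FF_continuous, fun n => ?_⟩
  rw [← piX_one, FF, TT_zpow]
  rfl

lemma shiftH_eq : shiftH = shift := rfl

lemma translate_mem (f : ℤ → ℝ) (n : ℤ) : (fun m => f (m + n)) ∈ cyclicSystem f :=
  subset_closure ⟨n, rfl⟩

lemma ff_mem : ff ∈ cyclicSystem ff := by
  have := translate_mem ff 0
  simpa using this

lemma zz_mem : zz ∈ cyclicSystem ff := by
  refine isClosed_closure.mem_of_tendsto tendsto_ff (Eventually.of_forall fun k => ?_)
  have : shiftH^[8 ^ k] ff = fun m => ff (m + ((8 ^ k : ℕ) : ℤ)) := by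
    funext m
    exact shiftH_iter _ _ _
  rw [this]
  exact translate_mem ff _

lemma zero_mem : (0 : ℤ → ℝ) ∈ cyclicSystem ff := by
  refine isClosed_closure.mem_of_tendsto tendsto_zz (Eventually.of_forall fun k => ?_)
  have key : ∀ (n : ℕ) (g : ℤ → ℝ), g ∈ cyclicSystem ff → shiftH.symm^[n] g ∈ cyclicSystem ff := by
    intro n
    induction n with
    | zero => intro g hg; exact hg
    | succ n ih =>
      intro g hg
      rw [Function.iterate_succ_apply]
      apply ih
      rw [shift_mem_iff]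
      simpa [← shiftH_eq] using hg
  exact key _ _ zz_mem

lemma not_rep_cyclic (𝕜 : Type) [RCLike 𝕜] :
    ¬ HilbertRepresentable.{u, 0} 𝕜 (cyclicSystem ff) (cyclicShift ff) := by
  rintro ⟨H, _, _, _, U, g, he, hg⟩
  refine not_rep (cyclicShift ff) (fun y => rfl) ff_mem zz_mem zero_mem U g ?_ hg
    (continuous_inner_of_weak he.continuous)
  intro x y hxy
  apply he.injective
  simp only [hxy]

end

/-- There is a Hilbert function `f : ℤ → ℝ` whose cyclic system `(X_f, σ)` is not Hilbert
representable, whether Hilbert spaces are taken real or complex. -/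
theorem result : ∃ f : ℤ → ℝ,
    (IsHilbertFunction ℝ f ∧ IsHilbertFunction ℂ f) ∧
    ¬ HilbertRepresentable.{u, 0} ℝ (cyclicSystem f) (cyclicShift f) ∧
    ¬ HilbertRepresentable.{u, 0} ℂ (cyclicSystem f) (cyclicShift f) :=
  ⟨Pool.Agent.Helper393.HilbertSys.ff,
    ⟨ff_hilbert ℝ rep_real, ff_hilbert ℂ rep_complex⟩, not_rep_cyclic ℝ, not_rep_cyclic ℂ⟩

end Pool.Agent.Results.MP_4abea4_an.CyclicHilbert
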